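import Pool.Agent.H6.HRA.CLM

/-!
Board hrk_modules, part B: the values are small when the linear forms are small, complex
coefficients (the proof of helper84 for integer coefficients, in which only norms are used).
-/

open Polynomial

namespace Pool.Agent.H6.HRA

open Pool.Agent.H72.BF (RP Gf binP)
open Pool.Agent.H72.HR Pool.Agent.H72.HRA
open Pool.Agent.H84.HR (exists_Lam_bound pow_le_exp_h mu_le one_add_le_exp_mul abs_C0_le norm_th_le
  log_cond tc_bound card_Ux_le prod_pow_le gf_eval_shift desc_le gt gt_tail gt_partial gt_full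
  sum_trunc lin_exp fact_le gv sum_half_le fprod_sub_le fprod_norm_le mprod_sub_le ms ms_card ms_prod
  gv_norm_le nat_le_exp)
open Pool.Agent.H20.HR (norm_gaC_le norm_yyC_le norm_ymC_le norm_kmC_le)

set_option linter.unusedSectionVars false
set_option linter.unusedVariables false

noncomputable section

section
variable {ρ τ : Type} [Fintype ρ] [Fintype τ] [DecidableEq ρ] [DecidableEq τ]
variable {n c w h g A B Q : ℕ}
variable {lam : Fin n → ℂ} {q : Fin n → ρ → τ → ℤ} {ν : Fin c → τ} {k : ρ → Fin c → ℂ}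
  {E : Fin c → τ → ℂ} {C0 M : ℝ}

theorem smla (htsm : T_TSM) (htcb : T_TCB) : T_SMLA := by
  intro n lam ρ τ _ _ _ _ c w q C0
  obtain ⟨c0, hc0, htcb⟩ := htcb
  obtain ⟨M, hM0, hM⟩ := exists_Lam_bound lam q
  obtain ⟨c1, hc1⟩ : ∃ x : ℝ, x = c + |C0| + 1 := ⟨_, rfl⟩
  obtain ⟨c2, hc2⟩ : ∃ x : ℝ, x = c + (|C0| + Fintype.card τ * M) + 1 := ⟨_, rfl⟩
  obtain ⟨c3, hc3⟩ : ∃ x : ℝ, x = c0 * (1 + Real.log 16 + Fintype.card τ * M * 16) := ⟨_, rfl⟩
  obtain ⟨Ex, hEx⟩ : ∃ x : ℝ, x = (2 * Fintype.card ρ + Fintype.card τ + Fintype.card τ * c1 +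
    w * c2 + Fintype.card ρ + Fintype.card ρ * (1 + c3) + (1 + c3)) := ⟨_, rfl⟩
  obtain ⟨cD, hcD⟩ : ∃ x : ℝ, x = Fintype.card τ * M + 2 * c + |C0| + 1 := ⟨_, rfl⟩
  obtain ⟨cL, hcL⟩ : ∃ x : ℝ, x = Fintype.card τ * M + w + |C0| := ⟨_, rfl⟩
  obtain ⟨cE, hcE⟩ : ∃ x : ℝ, x = (2 * Fintype.card ρ + Fintype.card τ) + Fintype.card τ * c1 +
    1 + cD + (c + 1) + Fintype.card ρ * (1 + c3) := ⟨_, rfl⟩
  have hl16 : 0 ≤ Real.log 16 := Real.log_nonneg (by norm_num)
  have hc1' : 0 ≤ c1 := by rw [hc1]; positivity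
  have hc2' : 0 ≤ c2 := by rw [hc2]; positivity
  have hc3' : 0 ≤ c3 := by rw [hc3]; positivity
  have hEx' : 0 ≤ Ex := by rw [hEx]; positivity
  have hcD' : 0 ≤ cD := by rw [hcD]; positivity
  have hcL' : 0 ≤ cL := by rw [hcL]; positivity
  have hcE' : 0 ≤ cE := by rw [hcE]; positivity
  refine ⟨1 + cL + Ex + cE, by positivity, ?_⟩
  intro A B Q hAQ hB hBQ
  refine ⟨(2 * A + 1) ^ 2, ?_⟩
  intro g hg
  have hg1 : 1 ≤ g := le_trans (Nat.one_le_pow _ _ (by omega)) hg
  refine ⟨g ^ Q, ?_⟩
  intro h hgh ν k E hEν hk hE I b ε hb hε0 hε1 hyy p Z δ X hZ hδ hp hf x y s hxy hs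
  have hh : 1 ≤ h := le_trans (Nat.one_le_pow _ _ hg1) hgh
  have hgR : (1 : ℝ) ≤ g := by exact_mod_cast hg1
  have hhR : (1 : ℝ) ≤ h := by exact_mod_cast hh
  have hgQ1 : (1 : ℝ) ≤ (g : ℝ) ^ Q := one_le_pow₀ hgR
  obtain ⟨W, hW⟩ : ∃ x : ℝ, x = h * (g : ℝ) ^ Q := ⟨_, rfl⟩
  have hW1 : 1 ≤ W := by rw [hW]; exact one_le_mul_of_one_le_of_one_le hhR hgQ1
  have hhW : (h : ℝ) ≤ W := by rw [hW]; exact le_mul_of_one_le_right (by linarith) hgQ1
  have hgQW : (g : ℝ) ^ Q ≤ W := by rw [hW]; exact le_mul_of_one_le_left (by linarith) hhR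
  have hZ0 : 0 ≤ Z := by linarith
  have hRHS : 0 ≤ δ + Z * Real.exp (-(X * W)) + Z * ε := by positivity
  rw [← hW]
  by_cases hy0 : ∃ l, y (ν l) ≠ 0
  · obtain ⟨l, hl⟩ := hy0
    have h0 : vlC lam q ν k E p x y s = 0 := by
      rw [vlC]
      refine Finset.sum_eq_zero fun u _ => ?_
      have : ∏ a, gaC ν E u a ^ y a = 0 := by
        refine Finset.prod_eq_zero (Finset.mem_univ (ν l)) ?_
        rw [gaC_nu hEν, zero_pow hl]
      rw [this]
      ring
    rw [h0, norm_zero]
    positivity
  · push Not at hy0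
    have hya : ∀ a, y a ≤ ∑ a, y a := fun a =>
      Finset.single_le_sum (f := fun a => y a) (fun _ _ => Nat.zero_le _) (Finset.mem_univ a)
    have hyQ : ∀ a, y a ≤ g ^ Q := fun a => by have := hya a; omega
    have hxQ : ∀ i, x i ≤ g ^ Q := fun i => by
      have : x i ≤ ∑ i, x i :=
        Finset.single_le_sum (f := fun a => x a) (fun _ _ => Nat.zero_le _) (Finset.mem_univ i)
      omega
    obtain ⟨S, hS⟩ : ∃ S : ℝ, S = Real.exp (Ex * W) * (δ + Z * Real.exp (-(X * W))) := ⟨_, rfl⟩
    have hS0 : 0 ≤ S := by rw [hS]; positivity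
    -- the linear forms
    obtain ⟨cc, hcc⟩ : ∃ cc : Ux ρ τ h (g ^ (Q - B)) (g ^ (Q - A)) → ρ → ℂ,
      cc = fun u i => -(th lam q u i + kmC ν k u i) := ⟨_, rfl⟩
    obtain ⟨TT, hTT⟩ : ∃ TT : Ux ρ τ h (g ^ (Q - B)) (g ^ (Q - A)) → ρ → ℂ,
      TT = fun u i => ∑ a, (-Lam lam q i a) * gaC ν E u a +
        ∑ j, (-b i j) * ymC lam q ν k E I u j := ⟨_, rfl⟩
    have hdiff : ∀ u i, ‖cc u i - TT u i‖ ≤ c * Real.exp h * ε := by
      intro u i
      have e1 : cc u i - TT u i = -∑ l, (yyC lam q k E i l - ∑ j, b i j * yyC lam q k E (I j) l) *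
          ((u.2 (ν l) : ℕ) : ℂ) := by
        rw [← thC_kmC, hcc, hTT]
        simp only [neg_mul, Finset.sum_neg_distrib]
        ring
      rw [e1, norm_neg]
      refine (norm_sum_le _ _).trans ?_
      calc ∑ l, ‖(yyC lam q k E i l - ∑ j, b i j * yyC lam q k E (I j) l) *
            ((u.2 (ν l) : ℕ) : ℂ)‖ ≤ ∑ _l : Fin c, ε * Real.exp h := by
            refine Finset.sum_le_sum fun l _ => ?_
            rw [norm_mul, Complex.norm_natCast]
            exact mul_le_mul (hyy i l) (mu_le hgh hg1 u _) (Nat.cast_nonneg _) hε0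
        _ = c * Real.exp h * ε := by
            rw [Finset.sum_const, Finset.card_univ, Fintype.card_fin, nsmul_eq_mul]; ring
    have hccn0 : ∀ u i, ‖cc u i‖ ≤ Real.exp ((Fintype.card τ * M + c + |C0| + 1) * h) := by
      intro u i
      rw [hcc]
      simp only [norm_neg]
      have e1 := norm_th_le (B := B) hM0 hM u i
      have e2 := norm_kmC_le (ν := ν) hh hgh hg1 hk u i
      have e3 : (g : ℝ) ^ (Q - A) ≤ Real.exp h := by
        have := pow_le_exp_h (A := A) hgh hg1
        rwa [Nat.cast_pow] at this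
      have e4 : Real.exp h ≤ Real.exp ((c + |C0| + 1) * h) := by
        refine Real.exp_le_exp.2 ?_
        have : (0 : ℝ) ≤ (c + |C0|) * h := by positivity
        linarith
      have e5 := one_add_le_exp_mul (x := (Fintype.card τ : ℝ) * M) (by positivity) hh
      have e6 : Real.exp ((Fintype.card τ * M + c + |C0| + 1) * h) =
          Real.exp (Fintype.card τ * M * h) * Real.exp ((c + |C0| + 1) * h) := by
        rw [← Real.exp_add]; congr 1; ring
      rw [e6]
      have e7 : Fintype.card τ * M * (g : ℝ) ^ (Q - A) ≤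
          Fintype.card τ * M * Real.exp ((c + |C0| + 1) * h) :=
        mul_le_mul_of_nonneg_left (e3.trans e4) (by positivity)
      have e8 := Real.exp_pos ((c + |C0| + 1) * h)
      refine (norm_add_le _ _).trans ?_
      nlinarith
    have hccn : ∀ u i, ‖cc u i‖ ≤ Real.exp (cD * h) := by
      intro u i
      refine (hccn0 u i).trans (Real.exp_le_exp.2 ?_)
      rw [hcD]
      have : (0 : ℝ) ≤ c * h := by positivity
      linarith
    have hTTn : ∀ u i, ‖TT u i‖ ≤ Real.exp (cD * h) := by
      intro u i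
      have e1 : ‖TT u i‖ ≤ ‖cc u i‖ + ‖cc u i - TT u i‖ := norm_le_norm_add_norm_sub _ _
      have e2 := hdiff u i
      have e3 : c * Real.exp h * ε ≤ c * Real.exp h :=
        mul_le_of_le_one_right (by positivity) hε1
      have e4 : Real.exp h ≤ Real.exp ((Fintype.card τ * M + c + |C0| + 1) * h) := by
        refine Real.exp_le_exp.2 ?_
        have : (0 : ℝ) ≤ (Fintype.card τ * M + c + |C0|) * h := by positivity
        linarith
      have e5 := one_add_le_exp_mul (x := (c : ℝ)) (Nat.cast_nonneg c) hh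
      have e6 : Real.exp (cD * h) =
          Real.exp (c * h) * Real.exp ((Fintype.card τ * M + c + |C0| + 1) * h) := by
        rw [← Real.exp_add, hcD]; congr 1; ring
      rw [e6]
      have e7 : c * Real.exp h ≤ c * Real.exp ((Fintype.card τ * M + c + |C0| + 1) * h) :=
        mul_le_mul_of_nonneg_left e4 (Nat.cast_nonneg c)
      have e8 := Real.exp_pos ((Fintype.card τ * M + c + |C0| + 1) * h)
      have e9 := hccn0 u i
      nlinarith
    have hD1 : 1 ≤ Real.exp (cD * h) := Real.one_le_exp (by positivity)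
    have hΛ : ∀ i, ∑ a, ‖-Lam lam q i a‖ + ∑ j, ‖-b i j‖ ≤ Real.exp (cL * h) := by
      intro i
      have e1 : ∑ a, ‖-Lam lam q i a‖ ≤ Fintype.card τ * M := by
        calc ∑ a, ‖-Lam lam q i a‖ ≤ ∑ _a : τ, M :=
              Finset.sum_le_sum fun a _ => by rw [norm_neg]; exact hM i a
          _ = _ := by rw [Finset.sum_const, Finset.card_univ, nsmul_eq_mul]
      have e2 : ∑ j, ‖-b i j‖ ≤ w * Real.exp (|C0| * h) := by
        calc ∑ j, ‖-b i j‖ ≤ ∑ _j : Fin w, Real.exp (|C0| * h) :=
              Finset.sum_le_sum fun a _ => by rw [norm_neg]; exact abs_C0_le (hb i a)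
          _ = _ := by rw [Finset.sum_const, Finset.card_univ, Fintype.card_fin, nsmul_eq_mul]
      have e3 : 1 ≤ Real.exp (|C0| * h) := Real.one_le_exp (by positivity)
      have e4 := one_add_le_exp_mul (x := (Fintype.card τ : ℝ) * M + w) (by positivity) hh
      have e5 : Real.exp (cL * h) =
          Real.exp ((Fintype.card τ * M + w) * h) * Real.exp (|C0| * h) := by
        rw [← Real.exp_add, hcL]; congr 1; ring
      rw [e5]
      have e6 : Fintype.card τ * M ≤ Fintype.card τ * M * Real.exp (|C0| * h) :=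
        le_mul_of_one_le_right (by positivity) e3
      nlinarith [Real.exp_pos (|C0| * h)]
    -- bound for fixed κ
    have key : ∀ κ : ρ → ℕ, (∀ i, κ i < x i + 1) →
        ‖∑ u, ((p u : ℂ) * ∏ a, gaC ν E u a ^ y a) *
          ∏ i, (cc u i ^ (x i - κ i) * gv lam q s u i (κ i))‖ ≤
        Real.exp (cL * W) * S + Real.exp (cE * W) * (Z * ε) := by
      intro κ hκ
      have hκQ : ∀ i, κ i ≤ g ^ Q := fun i => by have := hκ i; have := hxQ i; omega
      obtain ⟨m, hm⟩ : ∃ m : ρ → ℕ, m = fun i => x i - κ i := ⟨_, rfl⟩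
      have hmx : ∑ i, m i ≤ ∑ i, x i := Finset.sum_le_sum fun i _ => by rw [hm]; simp only; omega
      have hmQ : ∑ i, m i ≤ g ^ Q := by omega
      have gvn : ∀ (u : Ux ρ τ h (g ^ (Q - B)) (g ^ (Q - A))) (i : ρ),
          ‖gv lam q s u i (κ i)‖ ≤ Real.exp ((1 + c3) * W) := by
        intro u i
        rw [hW]
        exact gv_norm_le htsm c0 hc0 htcb hh hAQ hB hBQ hg hgh hM0 hM s
          (fun i => ⟨(hs i).1, by exact_mod_cast (hs i).2⟩) (κ i) (hκQ i) c3 hc3 u i
      -- the main term
      have t1 : ‖∑ u, ((p u : ℂ) * ∏ i, gv lam q s u i (κ i)) * (∏ a, gaC ν E u a ^ y a) *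
          (∏ j, ymC lam q ν k E I u j ^ ((0 : Fin w → ℕ) j)) * ((ms m).map (TT u)).prod‖ ≤
          Real.exp (cL * h) ^ Multiset.card (ms m) * S := by
        rw [hTT]
        refine lin_exp (fun u a => gaC ν E u a) (fun u j => ymC lam q ν k E I u j)
          (fun u => (p u : ℂ) * ∏ i, gv lam q s u i (κ i)) (fun i a => -Lam lam q i a)
          (fun i j => -b i j) (g ^ Q) S (Real.exp (cL * h)) hS0 (Real.exp_pos _).le ν
          (fun u l => gaC_nu hEν u l) hΛ ?_ (ms m) y 0 hy0 ?_ ?_
        · intro y' z' h1 h2 h3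
          rw [hS, hEx, hW]
          exact claimSC htsm c0 hc0 htcb hh hAQ hB hBQ hg hgh hk hE hM0 hM I p Z δ X hZ hδ hp
            (fun y z x a1 a2 a3 a4 => hf y z x a1 a2 a3 a4) s
            (fun i => ⟨(hs i).1, by exact_mod_cast (hs i).2⟩) κ hκQ y' z' h1 h2 h3 c1 c2 c3
            hc1 hc2 hc3
        · intro a
          rw [ms_card]
          have := hya a
          omega
        · intro j
          rw [ms_card, Pi.zero_apply]
          omega
      have t2 : Real.exp (cL * h) ^ Multiset.card (ms m) ≤ Real.exp (cL * W) := by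
        rw [ms_card]
        calc Real.exp (cL * h) ^ (∑ i, m i) ≤ Real.exp (cL * h) ^ (g ^ Q) :=
              pow_le_pow_right₀ (Real.one_le_exp (by positivity)) hmQ
          _ = Real.exp (cL * W) := by
              rw [← Real.exp_nat_mul, hW]; push_cast; congr 1; ring
      -- the difference
      have t3 : ∀ u, ‖∏ i, cc u i ^ m i - ((ms m).map (TT u)).prod‖ ≤
          Real.exp W * Real.exp (cD * W) * (Real.exp ((c + 1) * W) * ε) := by
        intro u
        rw [← ms_prod]
        have e1 := mprod_sub_le (cc u) (TT u) (Real.exp (cD * h)) (c * Real.exp h * ε) hD1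
          (by positivity) (ms m) (fun i _ => hccn u i) (fun i _ => hTTn u i)
          (fun i _ => hdiff u i)
        refine e1.trans ?_
        have e2 : (Multiset.card (ms m) : ℝ) ≤ Real.exp W := by
          rw [ms_card]
          have e3 : ((∑ i, m i : ℕ) : ℝ) ≤ (g : ℝ) ^ Q := by exact_mod_cast hmQ
          have e4 := Real.add_one_le_exp W
          linarith
        have e5 : Real.exp (cD * h) ^ Multiset.card (ms m) ≤ Real.exp (cD * W) := by
          rw [ms_card]
          calc Real.exp (cD * h) ^ (∑ i, m i) ≤ Real.exp (cD * h) ^ (g ^ Q) :=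
                pow_le_pow_right₀ hD1 hmQ
            _ = Real.exp (cD * W) := by
                rw [← Real.exp_nat_mul, hW]; push_cast; congr 1; ring
        have e6 : c * Real.exp h ≤ Real.exp ((c + 1) * W) := by
          have e7 := nat_le_exp hW1 c
          have e8 : Real.exp h ≤ Real.exp W := Real.exp_le_exp.2 hhW
          have e9 : Real.exp ((c + 1) * W) = Real.exp (c * W) * Real.exp W := by
            rw [← Real.exp_add]; congr 1; ring
          rw [e9]
          exact mul_le_mul e7 e8 (Real.exp_pos _).le (Real.exp_pos _).le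
        refine mul_le_mul (mul_le_mul e2 e5 (by positivity) (Real.exp_pos _).le)
          (mul_le_mul_of_nonneg_right e6 hε0) (by positivity) (by positivity)
      have t4 : ∑ u, ((p u : ℂ) * ∏ a, gaC ν E u a ^ y a) *
          ∏ i, (cc u i ^ (x i - κ i) * gv lam q s u i (κ i)) =
          ∑ u, ((p u : ℂ) * ∏ i, gv lam q s u i (κ i)) * (∏ a, gaC ν E u a ^ y a) *
          (∏ j, ymC lam q ν k E I u j ^ ((0 : Fin w → ℕ) j)) * ((ms m).map (TT u)).prod +
          ∑ u, ((p u : ℂ) * ∏ i, gv lam q s u i (κ i)) * (∏ a, gaC ν E u a ^ y a) *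
          (∏ i, cc u i ^ m i - ((ms m).map (TT u)).prod) := by
        rw [← Finset.sum_add_distrib]
        refine Finset.sum_congr rfl fun u _ => ?_
        rw [Finset.prod_mul_distrib, hm]
        simp only [Pi.zero_apply, pow_zero, Finset.prod_const_one]
        ring
      rw [t4]
      have t5 : ‖∑ u, ((p u : ℂ) * ∏ i, gv lam q s u i (κ i)) * (∏ a, gaC ν E u a ^ y a) *
          (∏ i, cc u i ^ m i - ((ms m).map (TT u)).prod)‖ ≤ Real.exp (cE * W) * (Z * ε) := by
        refine (norm_sum_le _ _).trans ?_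
        calc ∑ u, ‖((p u : ℂ) * ∏ i, gv lam q s u i (κ i)) * (∏ a, gaC ν E u a ^ y a) *
              (∏ i, cc u i ^ m i - ((ms m).map (TT u)).prod)‖
            ≤ ∑ _u : Ux ρ τ h (g ^ (Q - B)) (g ^ (Q - A)),
              (Z * Real.exp ((1 + c3) * W) ^ Fintype.card ρ) *
              Real.exp (Fintype.card τ * c1 * W) *
              (Real.exp W * Real.exp (cD * W) * (Real.exp ((c + 1) * W) * ε)) := by
              refine Finset.sum_le_sum fun u _ => ?_
              rw [norm_mul, norm_mul, norm_mul, Complex.norm_intCast]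
              refine mul_le_mul (mul_le_mul (mul_le_mul (hp u) ?_ (norm_nonneg _) hZ0)
                ?_ (norm_nonneg _) (by positivity)) (t3 u) (norm_nonneg _) (by positivity)
              · exact fprod_norm_le _ _ (Real.one_le_exp (by positivity)) (gvn u)
              · rw [hW]
                exact prod_pow_le _ y c1 h ((g : ℝ) ^ Q) (g ^ Q) (by push_cast; rfl) hc1'
                  (Nat.cast_nonneg h) (fun a => by rw [hc1]; exact norm_gaC_le hh hgh hg1 hE u a)
                  hyQ
          _ ≤ Real.exp ((2 * Fintype.card ρ + Fintype.card τ) * W) *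
              ((Z * Real.exp ((1 + c3) * W) ^ Fintype.card ρ) *
              Real.exp (Fintype.card τ * c1 * W) *
              (Real.exp W * Real.exp (cD * W) * (Real.exp ((c + 1) * W) * ε))) := by
              rw [Finset.sum_const, Finset.card_univ, nsmul_eq_mul]
              refine mul_le_mul_of_nonneg_right ?_ (by positivity)
              refine (card_Ux_le hh hgh hg1).trans (Real.exp_le_exp.2 ?_)
              exact mul_le_mul_of_nonneg_left hhW (by positivity)
          _ = Real.exp (cE * W) * (Z * ε) := by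
              have e10 : Real.exp (cE * W) =
                  Real.exp ((2 * Fintype.card ρ + Fintype.card τ) * W) *
                  (Real.exp ((1 + c3) * W) ^ Fintype.card ρ *
                  Real.exp (Fintype.card τ * c1 * W) *
                  (Real.exp W * Real.exp (cD * W) * Real.exp ((c + 1) * W))) := by
                rw [← Real.exp_nat_mul]
                simp only [← Real.exp_add]
                congr 1
                rw [hcE]
                ring
              rw [e10]
              ring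
      refine (norm_add_le _ _).trans (add_le_add (t1.trans ?_) t5)
      exact mul_le_mul_of_nonneg_right t2 hS0
    have hS'0 : 0 ≤ Real.exp (cL * W) * S + Real.exp (cE * W) * (Z * ε) := by positivity
    have fin := sum_trunc (fun u => (p u : ℂ) * ∏ a, gaC ν E u a ^ y a)
      (fun u i κ => cc u i ^ (x i - κ) * gv lam q s u i κ)
      (fun i κ => ((x i).choose κ : ℂ)) (fun i => x i + 1)
      (Real.exp (cL * W) * S + Real.exp (cE * W) * (Z * ε)) hS'0 key (fun i => 2 ^ x i)
      (fun i => by
        simp only [Complex.norm_natCast]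
        have := Nat.sum_range_choose (x i)
        exact le_of_eq (by exact_mod_cast this))
    have hvl : vlC lam q ν k E p x y s = ∑ u, ((p u : ℂ) * ∏ a, gaC ν E u a ^ y a) *
        ∏ i, ∑ κ ∈ Finset.range (x i + 1), ((x i).choose κ : ℂ) *
        (cc u i ^ (x i - κ) * gv lam q s u i κ) := by
      rw [vlC_eq, hcc]
    rw [hvl]
    refine fin.trans ?_
    have f1 : ∏ i, (2 : ℝ) ^ x i ≤ Real.exp W := by
      rw [Finset.prod_pow_eq_pow_sum]
      have e1 : (2 : ℝ) ≤ Real.exp 1 := by have := Real.add_one_le_exp (1 : ℝ); linarith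
      calc (2 : ℝ) ^ (∑ i, x i) ≤ 2 ^ (g ^ Q) :=
            pow_le_pow_right₀ (by norm_num) (by omega)
        _ ≤ Real.exp 1 ^ (g ^ Q) := pow_le_pow_left₀ (by norm_num) e1 _
        _ = Real.exp ((g : ℝ) ^ Q) := by rw [Real.exp_one_pow]; push_cast; rfl
        _ ≤ Real.exp W := Real.exp_le_exp.2 hgQW
    refine (mul_le_mul_of_nonneg_right f1 hS'0).trans ?_
    rw [hS]
    have f2 : Real.exp ((1 + cL + Ex + cE) * W) =
        Real.exp W * Real.exp (cL * W) * Real.exp (Ex * W) * Real.exp (cE * W) := by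
      simp only [← Real.exp_add]; congr 1; ring
    rw [f2]
    have g1 : 1 ≤ Real.exp (cL * W) := Real.one_le_exp (by positivity)
    have g2 : 1 ≤ Real.exp (Ex * W) := Real.one_le_exp (by positivity)
    have g3 : 1 ≤ Real.exp (cE * W) := Real.one_le_exp (by positivity)
    have u1 : 0 ≤ δ + Z * Real.exp (-(X * W)) := by positivity
    have u2 : 0 ≤ Z * ε := by positivity
    calc Real.exp W * (Real.exp (cL * W) * (Real.exp (Ex * W) * (δ + Z * Real.exp (-(X * W)))) +
          Real.exp (cE * W) * (Z * ε))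
        = Real.exp W * Real.exp (cL * W) * Real.exp (Ex * W) * 1 *
          (δ + Z * Real.exp (-(X * W))) + Real.exp W * 1 * 1 * Real.exp (cE * W) * (Z * ε) := by
          ring
      _ ≤ Real.exp W * Real.exp (cL * W) * Real.exp (Ex * W) * Real.exp (cE * W) *
          (δ + Z * Real.exp (-(X * W))) +
          Real.exp W * Real.exp (cL * W) * Real.exp (Ex * W) * Real.exp (cE * W) * (Z * ε) := by
          gcongr
      _ = _ := by ring

end

end

end Pool.Agent.H6.HRA
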