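import Pool.Agent.H6.HRA.SMLA
import Pool.Agent.H84.HR.TSM

/-!
# Target `T_SMLA` without hypotheses
-/

set_option autoImplicit false

namespace Pool.Agent.H6.HRA

theorem pf_smla : Pool.Agent.H72.HRA.T_SMLA :=
  smla Pool.Agent.H84.HR.tsm Pool.Agent.H84.HR.tcb

end Pool.Agent.H6.HRA
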