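import Pool.Agent.H20.HR.BNDA
import Pool.Agent.H84.HR.SMLF

/-!
Board hrk_modules, part B: the values are small when the linear forms are small, complex
coefficients (the proof of helper84 for integer coefficients, in which only norms are used).
-/

open Polynomial

namespace Pool.Agent.H6.HRA

open Pool.Agent.H72.BF (RP Gf binP)
open Pool.Agent.H72.HR Pool.Agent.H72.HRA
open Pool.Agent.H84.HR (exists_Lam_bound pow_le_exp_h mu_le one_add_le_exp_mul abs_C0_le norm_th_le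
  log_cond tc_bound card_Ux_le prod_pow_le gf_eval_shift desc_le gt gt_tail gt_partial gt_full
  sum_trunc lin_exp fact_le gv sum_half_le fprod_sub_le fprod_norm_le mprod_sub_le ms ms_card ms_prod
  gv_norm_le nat_le_exp)
open Pool.Agent.H20.HR (norm_gaC_le norm_yyC_le norm_ymC_le norm_kmC_le)

set_option linter.unusedSectionVars false
set_option linter.unusedVariables false

noncomputable section

section
variable {ρ τ : Type} [Fintype ρ] [Fintype τ] [DecidableEq ρ] [DecidableEq τ]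
variable {n c w h g A B Q : ℕ} {L T1 : ℕ}
variable {lam : Fin n → ℂ} {q : Fin n → ρ → τ → ℤ} {ν : Fin c → τ} {k : ρ → Fin c → ℂ}
  {E : Fin c → τ → ℂ} {C0 M : ℝ}

theorem gaC_nu (hEν : ∀ l l', E l (ν l') = if l = l' then 1 else 0) (u : Ux ρ τ h L T1)
    (l : Fin c) : gaC ν E u (ν l) = 0 := by
  rw [gaC]
  simp [hEν]

/-- `θ_i + κ_i μ''` -/
theorem thC_kmC (I : Fin w → ρ) (b : ρ → Fin w → ℂ) (u : Ux ρ τ h L T1) (i : ρ) :
    th lam q u i + kmC ν k u i -
      (∑ a, Lam lam q i a * gaC ν E u a + ∑ j, b i j * ymC lam q ν k E I u j) =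
    ∑ l, (yyC lam q k E i l - ∑ j, b i j * yyC lam q k E (I j) l) * ((u.2 (ν l) : ℕ) : ℂ) := by
  have h1 : ∑ j, b i j * ymC lam q ν k E I u j =
      ∑ l, (∑ j, b i j * yyC lam q k E (I j) l) * ((u.2 (ν l) : ℕ) : ℂ) := by
    simp_rw [ymC, Finset.mul_sum, Finset.sum_mul]
    rw [Finset.sum_comm]
    exact Finset.sum_congr rfl fun l _ => Finset.sum_congr rfl fun j _ => by ring
  have h2 : ∑ a, Lam lam q i a * gaC ν E u a =
      ∑ a, ((u.2 a : ℕ) : ℂ) * Lam lam q i a -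
      ∑ l, (∑ a, E l a * Lam lam q i a) * ((u.2 (ν l) : ℕ) : ℂ) := by
    simp_rw [gaC]
    simp_rw [mul_sub, Finset.sum_sub_distrib, Finset.mul_sum, Finset.sum_mul]
    congr 1
    · exact Finset.sum_congr rfl fun a _ => by ring
    · rw [Finset.sum_comm]
      exact Finset.sum_congr rfl fun l _ => Finset.sum_congr rfl fun j _ => by ring
  rw [h1, h2, th, kmC]
  simp_rw [sub_mul, Finset.sum_sub_distrib, yyC, add_mul, Finset.sum_add_distrib]
  ring

theorem vlC_eq (p : Ux ρ τ h L T1 → ℤ) (x : ρ → ℕ) (y : τ → ℕ) (s : ρ → ℤ) :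
    vlC lam q ν k E p x y s = ∑ u, ((p u : ℂ) * ∏ a, gaC ν E u a ^ y a) *
      ∏ i, ∑ κ ∈ Finset.range (x i + 1), ((x i).choose κ : ℂ) *
        ((-(th lam q u i + kmC ν k u i)) ^ (x i - κ) * gv lam q s u i κ) := by
  rw [vlC]
  refine Finset.sum_congr rfl fun u _ => ?_
  have h1 : Complex.exp (∑ i, (s i : ℂ) * th lam q u i) =
      ∏ i, Complex.exp (th lam q u i * (s i : ℂ)) := by
    rw [Complex.exp_sum]
    exact Finset.prod_congr rfl fun i _ => by rw [mul_comm]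
  have h2 : ∏ i, ∑ κ ∈ Finset.range (x i + 1), ((x i).choose κ : ℂ) *
        ((-(th lam q u i + kmC ν k u i)) ^ (x i - κ) * gv lam q s u i κ) =
      (∏ i, (Gf 1 (-kmC ν k u i) (rp u i) (x i)).eval (s i : ℂ)) *
        ∏ i, Complex.exp (th lam q u i * (s i : ℂ)) := by
    rw [← Finset.prod_mul_distrib]
    refine Finset.prod_congr rfl fun i _ => ?_
    have h3 : -kmC ν k u i = th lam q u i - (th lam q u i + kmC ν k u i) := by ring
    rw [h3, gf_eval_shift]
    refine Finset.sum_congr rfl fun κ _ => ?_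
    rw [gv]
    ring
  rw [h1, h2]
  ring

/-- step (S) -/
theorem claimSC (htsm : T_TSM) (c0 : ℝ) (hc0 : 0 < c0)
    (htcb : ∀ (h L m l N : ℕ) (R : ℝ) (θ : ℂ), 1 ≤ h → m ≤ h → l + 1 ≤ L → 1 ≤ R →
      (∑ j ∈ Finset.range N, ‖tc (RP h m l) θ j‖ * (R * h) ^ j) ≤
        Real.exp (c0 * (h * L * (1 + Real.log R) + ‖θ‖ * (R * h))))
    (hh : 1 ≤ h) (hAQ : A ≤ Q) (hB : 1 ≤ B) (hBQ : B ≤ Q) (hg : (2 * A + 1) ^ 2 ≤ g)
    (hgh : g ^ Q ≤ h)
    (hk : ∀ i l, ‖k i l‖ ≤ Real.exp (C0 * h)) (hE : ∀ l a, ‖E l a‖ ≤ Real.exp (C0 * h))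
    (hM0 : 0 ≤ M) (hM : ∀ i a, ‖Lam lam q i a‖ ≤ M) (I : Fin w → ρ)
    (p : Ux ρ τ h (g ^ (Q - B)) (g ^ (Q - A)) → ℤ) (Z δ : ℝ) (X : ℕ) (hZ : 1 ≤ Z) (hδ : 0 ≤ δ)
    (hp : ∀ u, |(p u : ℝ)| ≤ Z)
    (hf : ∀ (y : τ → ℕ) (z : Fin w → ℕ) (x : ρ → ℕ), (∀ l, y (ν l) = 0) → (∀ a, y a ≤ g ^ Q) →
      (∀ j, z j ≤ g ^ Q) → (∀ i, x i < X * (h * g ^ Q)) →
      ‖∑ u, (p u : ℂ) * cfuC (4 * (h * g ^ A)) lam q ν k E I y z x u‖ ≤ δ)
    (s : ρ → ℤ) (hs : ∀ i, 0 ≤ s i ∧ s i ≤ h * g ^ A) (κ : ρ → ℕ) (hκ : ∀ i, κ i ≤ g ^ Q)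
    (y : τ → ℕ) (z : Fin w → ℕ) (hy0 : ∀ l, y (ν l) = 0) (hy : ∀ a, y a ≤ g ^ Q)
    (hz : ∀ j, z j ≤ g ^ Q) (c1 c2 c3 : ℝ) (hc1 : c1 = c + |C0| + 1)
    (hc2 : c2 = c + (|C0| + Fintype.card τ * M) + 1)
    (hc3 : c3 = c0 * (1 + Real.log 16 + Fintype.card τ * M * 16)) :
    ‖∑ u, ((p u : ℂ) * ∏ i, gv lam q s u i (κ i)) * (∏ a, gaC ν E u a ^ y a) *
      (∏ j, ymC lam q ν k E I u j ^ z j)‖ ≤
      Real.exp ((2 * Fintype.card ρ + Fintype.card τ + Fintype.card τ * c1 + w * c2 +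
        Fintype.card ρ + Fintype.card ρ * (1 + c3) + (1 + c3)) * (h * (g : ℝ) ^ Q)) *
        (δ + Z * Real.exp (-(X * (h * (g : ℝ) ^ Q)))) := by
  have hg1 : 1 ≤ g := le_trans (Nat.one_le_pow _ _ (by omega)) hg
  have hgR : (1 : ℝ) ≤ g := by exact_mod_cast hg1
  have hhR : (1 : ℝ) ≤ h := by exact_mod_cast hh
  set W : ℝ := h * (g : ℝ) ^ Q with hW
  have hW1 : 1 ≤ W := one_le_mul_of_one_le_of_one_le hhR (one_le_pow₀ hgR)
  set σ : ℝ := h * (g : ℝ) ^ A with hσ
  have hσ1 : 1 ≤ σ := one_le_mul_of_one_le_of_one_le hhR (one_le_pow₀ hgR)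
  have hl16 : 0 ≤ Real.log 16 := Real.log_nonneg (by norm_num)
  have hc1' : 0 ≤ c1 := by rw [hc1]; positivity
  have hc2' : 0 ≤ c2 := by rw [hc2]; positivity
  have hc3' : 0 ≤ c3 := by rw [hc3]; positivity
  set N0 : ℕ := X * (h * g ^ Q) with hN0
  have hN0R : (N0 : ℝ) = X * W := by rw [hN0, hW]; push_cast; ring
  have hsn : ∀ i, ‖(s i : ℂ)‖ ≤ σ := by
    intro i
    rw [Complex.norm_intCast, hσ]
    obtain ⟨h1, h2⟩ := hs i
    rw [abs_of_nonneg (by exact_mod_cast h1)]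
    exact_mod_cast h2
  have hB16 : ∀ (u : Ux ρ τ h (g ^ (Q - B)) (g ^ (Q - A))) (i : ρ) (N : ℕ),
      ∑ j ∈ Finset.range N, ‖tc (rp u i) (th lam q u i) j‖ * (16 * σ) ^ j ≤
        Real.exp (c3 * W) := by
    intro u i N
    rw [hc3]
    exact tc_bound c0 hc0 htcb hh hAQ hB hBQ hg hM0 hM 16 (by norm_num) u i N
  have hfact : ∀ i, ((κ i).factorial : ℝ) ≤ Real.exp W := fun i => fact_le hg1 hgh (hκ i)
  -- truncated values
  set gl : Ux ρ τ h (g ^ (Q - B)) (g ^ (Q - A)) → ρ → ℂ := fun u i =>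
    ∑ j ∈ Finset.range N0, gt (rp u i) (th lam q u i) (s i : ℂ) (κ i) j with hgl
  have hsum : ∀ (u : Ux ρ τ h (g ^ (Q - B)) (g ^ (Q - A))) (i : ρ),
      HasSum (gt (rp u i) (th lam q u i) (s i : ℂ) (κ i)) (gv lam q s u i (κ i)) :=
    fun u i => htsm (rp u i) (th lam q u i) (s i : ℂ) (κ i)
  have b1 : ∀ (u : Ux ρ τ h (g ^ (Q - B)) (g ^ (Q - A))) i,
      ‖gv lam q s u i (κ i)‖ ≤ Real.exp ((1 + c3) * W) := by
    intro u i
    refine (gt_full (hsum u i) hσ1 (hsn i) (hB16 u i)).trans ?_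
    refine (mul_le_mul_of_nonneg_right (hfact i) (Real.exp_pos _).le).trans (le_of_eq ?_)
    rw [← Real.exp_add]; congr 1; ring
  have b2 : ∀ u i, ‖gl u i‖ ≤ Real.exp ((1 + c3) * W) := by
    intro u i
    refine (gt_partial N0 hσ1 (hsn i) (hB16 u i)).trans ?_
    refine (mul_le_mul_of_nonneg_right (hfact i) (Real.exp_pos _).le).trans (le_of_eq ?_)
    rw [← Real.exp_add]; congr 1; ring
  have b3 : ∀ u i, ‖gv lam q s u i (κ i) - gl u i‖ ≤
      Real.exp ((1 + c3) * W) * Real.exp (-(X * W)) := by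
    intro u i
    refine (gt_tail (S := 0) N0 (hsum u i) hσ1 (hsn i) (hB16 u i)).trans ?_
    rw [hN0R]
    refine (mul_le_mul_of_nonneg_right (hfact i) (by positivity)).trans (le_of_eq ?_)
    rw [add_mul, one_mul, Real.exp_add]; ring
  have hD1 : 1 ≤ Real.exp ((1 + c3) * W) := Real.one_le_exp (by positivity)
  have b4 : ∀ u, ‖∏ i, gv lam q s u i (κ i) - ∏ i, gl u i‖ ≤
      Fintype.card ρ * Real.exp ((1 + c3) * W) ^ Fintype.card ρ *
        (Real.exp ((1 + c3) * W) * Real.exp (-(X * W))) := fun u =>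
    fprod_sub_le _ _ _ _ hD1 (by positivity) (b1 u) (b2 u) (b3 u)
  have c4 : ∀ u : Ux ρ τ h (g ^ (Q - B)) (g ^ (Q - A)), ‖∏ a, gaC ν E u a ^ y a‖ ≤
      Real.exp (Fintype.card τ * c1 * W) := fun u =>
    prod_pow_le _ y c1 h ((g : ℝ) ^ Q) (g ^ Q) (by push_cast; rfl) hc1' (Nat.cast_nonneg h)
      (fun a => by rw [hc1]; exact norm_gaC_le hh hgh hg1 hE u a) hy
  have c5 : ∀ u : Ux ρ τ h (g ^ (Q - B)) (g ^ (Q - A)), ‖∏ j, ymC lam q ν k E I u j ^ z j‖ ≤
      Real.exp (w * c2 * W) := fun u => by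
    have := prod_pow_le (fun j => ymC lam q ν k E I u j) z c2 h ((g : ℝ) ^ Q) (g ^ Q)
      (by push_cast; rfl) hc2' (Nat.cast_nonneg h)
      (fun j => by rw [hc2]; exact norm_ymC_le hh hgh hg1 hk hE hM0 hM I u j) hz
    rwa [Fintype.card_fin] at this
  -- the main part
  have m1 : ‖∑ u, ((p u : ℂ) * ∏ i, gl u i) * (∏ a, gaC ν E u a ^ y a) *
      (∏ j, ymC lam q ν k E I u j ^ z j)‖ ≤ (∏ i, (2 * ((κ i).factorial : ℝ))) * δ := by
    set ϱ : ℂ := ((4 * (h * (g : ℝ) ^ A) : ℝ) : ℂ) with hϱ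
    have hϱ0 : ϱ ≠ 0 := by
      rw [hϱ]
      exact_mod_cast (by positivity : (4 * (h * (g : ℝ) ^ A)) ≠ 0)
    have hϱn : ‖ϱ‖ = 4 * σ := by
      rw [hϱ, Complex.norm_real, Real.norm_of_nonneg (by positivity)]
    have e1 : ∑ u, ((p u : ℂ) * ∏ i, gl u i) * (∏ a, gaC ν E u a ^ y a) *
        (∏ j, ymC lam q ν k E I u j ^ z j) =
        ∑ u, ((p u : ℂ) * ((∏ a, gaC ν E u a ^ y a) *
          (∏ j, ymC lam q ν k E I u j ^ z j))) * ∏ i, ∑ j ∈ Finset.range N0,
            (((j.descFactorial (κ i) : ℕ) : ℂ) * (s i : ℂ) ^ (j - κ i) / ϱ ^ j) *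
            (tc (rp u i) (th lam q u i) j * ϱ ^ j) := by
      refine Finset.sum_congr rfl fun u _ => ?_
      have e2 : ∏ i, gl u i = ∏ i, ∑ j ∈ Finset.range N0,
            (((j.descFactorial (κ i) : ℕ) : ℂ) * (s i : ℂ) ^ (j - κ i) / ϱ ^ j) *
            (tc (rp u i) (th lam q u i) j * ϱ ^ j) := by
        refine Finset.prod_congr rfl fun i _ => Finset.sum_congr rfl fun j _ => ?_
        rw [gt]
        have : ϱ ^ j ≠ 0 := pow_ne_zero _ hϱ0
        field_simp
      rw [e2]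
      ring
    rw [e1]
    refine sum_trunc _ (fun u i j => tc (rp u i) (th lam q u i) j * ϱ ^ j)
      (fun i j => ((j.descFactorial (κ i) : ℕ) : ℂ) * (s i : ℂ) ^ (j - κ i) / ϱ ^ j)
      (fun _ => N0) δ hδ ?_ _ ?_
    · intro j hj
      have := hf y z j hy0 hy hz hj
      refine le_trans (le_of_eq ?_) this
      congr 1
      refine Finset.sum_congr rfl fun u _ => ?_
      rw [cfuC, hϱ]
      ring
    · intro i
      calc ∑ j ∈ Finset.range N0, ‖((j.descFactorial (κ i) : ℕ) : ℂ) *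
            (s i : ℂ) ^ (j - κ i) / ϱ ^ j‖
          ≤ ∑ j ∈ Finset.range N0, ((κ i).factorial : ℝ) * (1 / 2) ^ j := by
            refine Finset.sum_le_sum fun j _ => ?_
            rw [norm_div, norm_mul, norm_pow, norm_pow, Complex.norm_natCast, hϱn,
              div_le_iff₀ (by positivity)]
            have d1 := desc_le j (κ i)
            have d2 : ‖(s i : ℂ)‖ ^ (j - κ i) ≤ σ ^ j :=
              (pow_le_pow_left₀ (norm_nonneg _) (hsn i) _).trans
                (pow_le_pow_right₀ hσ1 (Nat.sub_le _ _))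
            refine (mul_le_mul d1 d2 (by positivity) (by positivity)).trans (le_of_eq ?_)
            have d3 : (2 : ℝ) ^ j = (1 / 2) ^ j * 4 ^ j := by rw [← mul_pow]; norm_num
            rw [mul_pow, d3]; ring
        _ = ((κ i).factorial : ℝ) * ∑ j ∈ Finset.range N0, (1 / 2 : ℝ) ^ j := by
            rw [Finset.mul_sum]
        _ ≤ 2 * ((κ i).factorial : ℝ) := by
            have := sum_half_le N0
            nlinarith [(Nat.cast_nonneg (κ i).factorial : (0 : ℝ) ≤ _)]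
  have m2 : ∏ i, (2 * ((κ i).factorial : ℝ)) ≤
      Real.exp ((2 * Fintype.card ρ : ℝ) * W) := by
    calc ∏ i, (2 * ((κ i).factorial : ℝ)) ≤ ∏ _i : ρ, Real.exp (2 * W) := by
          refine Finset.prod_le_prod (fun i _ => by positivity) fun i _ => ?_
          have e1 : (2 : ℝ) ≤ Real.exp W := by
            have := Real.add_one_le_exp W
            linarith
          have e6 : Real.exp (2 * W) = Real.exp W * Real.exp W := by
            rw [← Real.exp_add]; congr 1; ring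
          rw [e6]
          exact mul_le_mul e1 (hfact i) (by positivity) (Real.exp_pos _).le
      _ = _ := by
          rw [Finset.prod_const, Finset.card_univ, ← Real.exp_nat_mul]
          congr 1; ring
  -- the difference
  have m3 : ‖∑ u, ((p u : ℂ) * ∏ i, gv lam q s u i (κ i)) * (∏ a, gaC ν E u a ^ y a) *
      (∏ j, ymC lam q ν k E I u j ^ z j) -
      ∑ u, ((p u : ℂ) * ∏ i, gl u i) * (∏ a, gaC ν E u a ^ y a) *
      (∏ j, ymC lam q ν k E I u j ^ z j)‖ ≤
      Real.exp ((2 * Fintype.card ρ + Fintype.card τ) * W) *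
        (Z * (Fintype.card ρ * Real.exp ((1 + c3) * W) ^ Fintype.card ρ *
        (Real.exp ((1 + c3) * W) * Real.exp (-(X * W)))) *
        Real.exp (Fintype.card τ * c1 * W) * Real.exp (w * c2 * W)) := by
    rw [← Finset.sum_sub_distrib]
    have e3 : ∀ u, ((p u : ℂ) * ∏ i, gv lam q s u i (κ i)) * (∏ a, gaC ν E u a ^ y a) *
      (∏ j, ymC lam q ν k E I u j ^ z j) -
      ((p u : ℂ) * ∏ i, gl u i) * (∏ a, gaC ν E u a ^ y a) *
      (∏ j, ymC lam q ν k E I u j ^ z j) =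
      (p u : ℂ) * (∏ i, gv lam q s u i (κ i) - ∏ i, gl u i) * (∏ a, gaC ν E u a ^ y a) *
      (∏ j, ymC lam q ν k E I u j ^ z j) := fun u => by ring
    simp_rw [e3]
    refine (norm_sum_le _ _).trans ?_
    calc ∑ u, ‖(p u : ℂ) * (∏ i, gv lam q s u i (κ i) - ∏ i, gl u i) *
          (∏ a, gaC ν E u a ^ y a) * (∏ j, ymC lam q ν k E I u j ^ z j)‖
        ≤ ∑ _u : Ux ρ τ h (g ^ (Q - B)) (g ^ (Q - A)),
          (Z * (Fintype.card ρ * Real.exp ((1 + c3) * W) ^ Fintype.card ρ *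
          (Real.exp ((1 + c3) * W) * Real.exp (-(X * W)))) *
          Real.exp (Fintype.card τ * c1 * W) * Real.exp (w * c2 * W)) := by
          refine Finset.sum_le_sum fun u _ => ?_
          rw [norm_mul, norm_mul, norm_mul, Complex.norm_intCast]
          refine mul_le_mul (mul_le_mul (mul_le_mul (hp u) (b4 u) (norm_nonneg _) (by linarith))
            (c4 u) (norm_nonneg _) (by positivity)) (c5 u) (norm_nonneg _) (by positivity)
      _ ≤ _ := by
          rw [Finset.sum_const, Finset.card_univ, nsmul_eq_mul]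
          refine mul_le_mul_of_nonneg_right ?_ (by positivity)
          refine (card_Ux_le hh hgh hg1).trans (Real.exp_le_exp.2 ?_)
          refine mul_le_mul_of_nonneg_left ?_ (by positivity)
          rw [hW]
          exact le_mul_of_one_le_right (by linarith) (one_le_pow₀ hgR)
  have m4 : (Fintype.card ρ : ℝ) ≤ Real.exp (Fintype.card ρ * W) := by
    have := Real.add_one_le_exp ((Fintype.card ρ : ℝ) * W)
    have h5 : (Fintype.card ρ : ℝ) ≤ Fintype.card ρ * W :=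
      le_mul_of_one_le_right (Nat.cast_nonneg _) hW1
    linarith
  set Ex : ℝ := (2 * Fintype.card ρ + Fintype.card τ + Fintype.card τ * c1 + w * c2 +
        Fintype.card ρ + Fintype.card ρ * (1 + c3) + (1 + c3)) with hEx
  have m5 : (∏ i, (2 * ((κ i).factorial : ℝ))) * δ ≤ Real.exp (Ex * W) * δ := by
    refine mul_le_mul_of_nonneg_right (m2.trans (Real.exp_le_exp.2 ?_)) hδ
    refine mul_le_mul_of_nonneg_right ?_ (by linarith)
    rw [hEx]
    have : 0 ≤ (Fintype.card τ : ℝ) + Fintype.card τ * c1 + w * c2 +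
        Fintype.card ρ + Fintype.card ρ * (1 + c3) + (1 + c3) := by positivity
    linarith
  have m6 : Real.exp ((2 * Fintype.card ρ + Fintype.card τ) * W) *
        (Z * (Fintype.card ρ * Real.exp ((1 + c3) * W) ^ Fintype.card ρ *
        (Real.exp ((1 + c3) * W) * Real.exp (-(X * W)))) *
        Real.exp (Fintype.card τ * c1 * W) * Real.exp (w * c2 * W)) ≤
      Real.exp (Ex * W) * (Z * Real.exp (-(X * W))) := by
    have e5 : Real.exp (Ex * W) = Real.exp ((2 * Fintype.card ρ + Fintype.card τ) * W) *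
        (Real.exp (Fintype.card ρ * W) * Real.exp ((1 + c3) * W) ^ Fintype.card ρ *
        Real.exp ((1 + c3) * W)) * Real.exp (Fintype.card τ * c1 * W) *
        Real.exp (w * c2 * W) := by
      rw [← Real.exp_nat_mul]
      simp only [← Real.exp_add]
      congr 1
      rw [hEx]
      ring
    rw [e5]
    have hnn : 0 ≤ Real.exp ((2 * Fintype.card ρ + Fintype.card τ) * W) *
        (Real.exp ((1 + c3) * W) ^ Fintype.card ρ * Real.exp ((1 + c3) * W)) *
        Real.exp (Fintype.card τ * c1 * W) *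
        Real.exp (w * c2 * W) * (Z * Real.exp (-(X * W))) := by
      have : 0 ≤ Z := by linarith
      positivity
    calc _ = (Fintype.card ρ : ℝ) * (Real.exp ((2 * Fintype.card ρ + Fintype.card τ) * W) *
        (Real.exp ((1 + c3) * W) ^ Fintype.card ρ * Real.exp ((1 + c3) * W)) *
        Real.exp (Fintype.card τ * c1 * W) *
        Real.exp (w * c2 * W) * (Z * Real.exp (-(X * W)))) := by ring
      _ ≤ Real.exp (Fintype.card ρ * W) *
        (Real.exp ((2 * Fintype.card ρ + Fintype.card τ) * W) *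
        (Real.exp ((1 + c3) * W) ^ Fintype.card ρ * Real.exp ((1 + c3) * W)) *
        Real.exp (Fintype.card τ * c1 * W) *
        Real.exp (w * c2 * W) * (Z * Real.exp (-(X * W)))) := mul_le_mul_of_nonneg_right m4 hnn
      _ = _ := by ring
  calc _ ≤ (∏ i, (2 * ((κ i).factorial : ℝ))) * δ +
        Real.exp ((2 * Fintype.card ρ + Fintype.card τ) * W) *
        (Z * (Fintype.card ρ * Real.exp ((1 + c3) * W) ^ Fintype.card ρ *
        (Real.exp ((1 + c3) * W) * Real.exp (-(X * W)))) *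
        Real.exp (Fintype.card τ * c1 * W) * Real.exp (w * c2 * W)) := by
        refine le_trans (norm_le_norm_add_norm_sub' _ _) (add_le_add m1 m3)
    _ ≤ Real.exp (Ex * W) * δ + Real.exp (Ex * W) * (Z * Real.exp (-(X * W))) :=
        add_le_add m5 m6
    _ = Real.exp (Ex * W) * (δ + Z * Real.exp (-(X * W))) := by ring

end

end

end Pool.Agent.H6.HRA
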